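import Pool.Agent.TH925.SN.D

set_option autoImplicit false
set_option linter.unusedVariables false
set_option linter.unusedSectionVars false

open Bundle Set Metric Filter Topology Manifold
open scoped ContDiff InnerProductSpace Manifold ENNReal

namespace Pool.Agent.TH925.SN

open Pool.Agent.H864R3

variable {S : Type} [MetricSpace S] [ChartedSpace (EuclideanSpace ℝ (Fin 2)) S]
    [IsManifold 𝓘(ℝ, EuclideanSpace ℝ (Fin 2)) ∞ S]
    [RiemannianBundle (fun x : S => TangentSpace 𝓘(ℝ, EuclideanSpace ℝ (Fin 2)) x)]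
    [IsContMDiffRiemannianBundle 𝓘(ℝ, EuclideanSpace ℝ (Fin 2)) ∞ (EuclideanSpace ℝ (Fin 2))
      (fun x : S => TangentSpace 𝓘(ℝ, EuclideanSpace ℝ (Fin 2)) x)]
    [IsRiemannianManifold 𝓘(ℝ, EuclideanSpace ℝ (Fin 2)) S]
    {N : ℕ} {F : S → EuclideanSpace ℝ (Fin N)}

/-- decompositions into simple closed curves are transported by `F` -/
theorem not_closed [CompactSpace S] [Nonempty S]
    (hF : ContMDiff 𝓘(ℝ, EuclideanSpace ℝ (Fin 2)) 𝓘(ℝ, EuclideanSpace ℝ (Fin N)) ∞ F)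
    (hinj : Function.Injective F) (hiso : Iso F) {R : RS (EuclideanSpace ℝ (Fin N))}
    (hR : R.S = range F) (L : LE R) (G : StatNet R.S) (hG : G.Nontrivial) (A : Set S)
    (hA : F '' A = G.image) :
    ¬ ∃ (k : ℕ) (c : Fin k → ℝ → S) (T : Fin k → ℝ),
        (∀ i, 0 < T i ∧ Function.Periodic (c i) (T i) ∧ Set.InjOn (c i) (Set.Ico 0 (T i)) ∧
          ∃ a : ℝ, 0 < a ∧ ∀ t : ℝ, ∃ δ > 0, ∀ s s' : ℝ,
            |s - t| < δ → |s' - t| < δ → dist (c i s) (c i s') = a * |s - s'|) ∧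
        (Pairwise fun i j => Disjoint (Set.range (c i)) (Set.range (c j))) ∧
        A = ⋃ i, Set.range (c i) := by
  rintro ⟨k, c, T, h1, h2, h3⟩
  apply hG
  choose hT hper hinj' a ha hd using h1
  refine ⟨k, fun i t => F (c i (t / a i)), fun i => a i * T i, ?_, ?_, ?_⟩
  · intro i
    have hai := ha i
    refine ⟨mul_pos hai (hT i), ?_, ?_, ?_⟩
    · refine isGeod_of_dist hF hinj hiso hR L (c := fun t => c i (t / a i)) ?_
      intro t0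
      obtain ⟨δ, hδ, h⟩ := hd i (t0 / a i)
      refine ⟨a i * δ, mul_pos hai hδ, ?_⟩
      intro s s' hs hs'
      have key : ∀ s, |s - t0| < a i * δ → |s / a i - t0 / a i| < δ := by
        intro s hs
        rw [← sub_div, abs_div, abs_of_pos hai, div_lt_iff₀ hai]
        linarith
      rw [h _ _ (key s hs) (key s' hs'), ← sub_div, abs_div, abs_of_pos hai]
      field_simp
    · intro t
      show F (c i ((t + a i * T i) / a i)) = F (c i (t / a i))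
      rw [add_div, mul_div_cancel_left₀ _ hai.ne', hper i]
    · intro s hs t ht hst
      have h4 : c i (s / a i) = c i (t / a i) := hinj hst
      have key : ∀ s, s ∈ Ico 0 (a i * T i) → s / a i ∈ Ico 0 (T i) := by
        intro s hs
        refine ⟨div_nonneg hs.1 hai.le, ?_⟩
        rw [div_lt_iff₀ hai]
        linarith [hs.2]
      have h5 := hinj' i (key s hs) (key t ht) h4
      field_simp at h5
      exact h5
  · intro i j hij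
    rw [Set.disjoint_left]
    rintro _ ⟨s, rfl⟩ ⟨t, ht⟩
    have h4 := hinj ht
    exact Set.disjoint_left.1 (h2 hij) ⟨_, rfl⟩ ⟨_, h4⟩
  · rw [← hA, h3]
    ext z
    constructor
    · rintro ⟨y, hy, rfl⟩
      obtain ⟨i, s, rfl⟩ := mem_iUnion.1 hy
      refine mem_iUnion.2 ⟨i, a i * s, ?_⟩
      show F (c i (a i * s / a i)) = F (c i s)
      rw [mul_div_cancel_left₀ _ (ha i).ne']
    · intro hz
      obtain ⟨i, s, rfl⟩ := mem_iUnion.1 hz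
      exact ⟨_, mem_iUnion.2 ⟨i, _, rfl⟩, rfl⟩

/-- the velocity of a lifted curve -/
theorem lift_deriv [CompactSpace S]
    (hF : ContMDiff 𝓘(ℝ, EuclideanSpace ℝ (Fin 2)) 𝓘(ℝ, EuclideanSpace ℝ (Fin N)) ∞ F)
    (hiso : Iso F) {γ : ℝ → S} {x : S} {t : ℝ} (ht : t ∈ Icc (0:ℝ) 1) (hx : γ t = x)
    (hγ : MDifferentiableWithinAt 𝓘(ℝ, ℝ) 𝓘(ℝ, EuclideanSpace ℝ (Fin 2)) γ (Icc 0 1) t)
    {v : EuclideanSpace ℝ (Fin N)} {l : ℝ} (hl : 0 < l) (hv : ‖v‖ = 1)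
    (hd : HasDerivWithinAt (fun t => F (γ t)) (l • v) (Icc 0 1) t) :
    @id (EuclideanSpace ℝ (Fin N)) (mfderiv 𝓘(ℝ, EuclideanSpace ℝ (Fin 2))
      𝓘(ℝ, EuclideanSpace ℝ (Fin N)) F x
      (‖@id (TangentSpace 𝓘(ℝ, EuclideanSpace ℝ (Fin 2)) x)
            (mfderivWithin 𝓘(ℝ, ℝ) 𝓘(ℝ, EuclideanSpace ℝ (Fin 2)) γ (Set.Icc 0 1) t (1 : ℝ))‖⁻¹
          • @id (TangentSpace 𝓘(ℝ, EuclideanSpace ℝ (Fin 2)) x)
            (mfderivWithin 𝓘(ℝ, ℝ) 𝓘(ℝ, EuclideanSpace ℝ (Fin 2)) γ (Set.Icc 0 1) t (1 : ℝ)))) = v := by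
  subst hx
  have hU : UniqueMDiffWithinAt 𝓘(ℝ, ℝ) (Icc (0:ℝ) 1) t := by
    rw [uniqueMDiffWithinAt_iff_uniqueDiffWithinAt]
    exact uniqueDiffOn_Icc zero_lt_one t ht
  have h1 : mfderivWithin 𝓘(ℝ, ℝ) 𝓘(ℝ, EuclideanSpace ℝ (Fin N)) (F ∘ γ) (Icc 0 1) t =
      (mfderiv 𝓘(ℝ, EuclideanSpace ℝ (Fin 2)) 𝓘(ℝ, EuclideanSpace ℝ (Fin N)) F (γ t)) ∘L
        (mfderivWithin 𝓘(ℝ, ℝ) 𝓘(ℝ, EuclideanSpace ℝ (Fin 2)) γ (Icc 0 1) t) :=
    mfderiv_comp_mfderivWithin _ (hF.mdifferentiableAt (by simp)) hγ hU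
  have h2 : derivWithin (fun t => F (γ t)) (Icc 0 1) t =
      @id (EuclideanSpace ℝ (Fin N)) (mfderiv 𝓘(ℝ, EuclideanSpace ℝ (Fin 2))
        𝓘(ℝ, EuclideanSpace ℝ (Fin N)) F (γ t)
        (mfderivWithin 𝓘(ℝ, ℝ) 𝓘(ℝ, EuclideanSpace ℝ (Fin 2)) γ (Icc 0 1) t (1 : ℝ))) := by
    have h3 : derivWithin (fun t => F (γ t)) (Icc 0 1) t =
      (mfderivWithin 𝓘(ℝ, ℝ) 𝓘(ℝ, EuclideanSpace ℝ (Fin N)) (F ∘ γ) (Icc 0 1) t) (1 : ℝ) := by
      rw [mfderivWithin_eq_fderivWithin, ← fderivWithin_derivWithin]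
      rfl
    rw [h3, h1]
    rfl
  rw [hd.derivWithin (uniqueDiffOn_Icc zero_lt_one t ht)] at h2
  set w : TangentSpace 𝓘(ℝ, EuclideanSpace ℝ (Fin 2)) (γ t) :=
    mfderivWithin 𝓘(ℝ, ℝ) 𝓘(ℝ, EuclideanSpace ℝ (Fin 2)) γ (Icc 0 1) t (1 : ℝ) with hw
  have h4 := hiso (γ t) w
  have h5 : ‖w‖ = l := by
    rw [← h4, ← h2, norm_smul, hv, mul_one, Real.norm_eq_abs, abs_of_pos hl]
  show @id (EuclideanSpace ℝ (Fin N)) (mfderiv 𝓘(ℝ, EuclideanSpace ℝ (Fin 2))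
      𝓘(ℝ, EuclideanSpace ℝ (Fin N)) F (γ t) (‖w‖⁻¹ • w)) = v
  rw [h5, map_smul]
  show l⁻¹ • @id (EuclideanSpace ℝ (Fin N)) (mfderiv 𝓘(ℝ, EuclideanSpace ℝ (Fin 2))
      𝓘(ℝ, EuclideanSpace ℝ (Fin N)) F (γ t) w) = v
  rw [← h2, smul_smul, inv_mul_cancel₀ hl.ne', one_smul]

end Pool.Agent.TH925.SN
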