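import Pool.Agent.H864R3.Main

set_option autoImplicit false
set_option linter.unusedVariables false
set_option linter.unusedSectionVars false

open Bundle Set Metric Filter Topology Manifold
open scoped ContDiff InnerProductSpace Manifold ENNReal

namespace Pool.Agent.TH925.SN

open Pool.Agent.H864R3

variable {S : Type} [MetricSpace S] [ChartedSpace (EuclideanSpace ℝ (Fin 2)) S]
    [IsManifold 𝓘(ℝ, EuclideanSpace ℝ (Fin 2)) ∞ S]
    [RiemannianBundle (fun x : S => TangentSpace 𝓘(ℝ, EuclideanSpace ℝ (Fin 2)) x)]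
    {N : ℕ} {F : S → EuclideanSpace ℝ (Fin N)}

/-- the isometry hypothesis -/
def Iso (F : S → EuclideanSpace ℝ (Fin N)) : Prop :=
  ∀ (x : S) (v : TangentSpace 𝓘(ℝ, EuclideanSpace ℝ (Fin 2)) x),
        ‖@id (EuclideanSpace ℝ (Fin N)) (mfderiv 𝓘(ℝ, EuclideanSpace ℝ (Fin 2))
          𝓘(ℝ, EuclideanSpace ℝ (Fin N)) F x v)‖ = ‖v‖

theorem mfderiv_inj (hiso : Iso F) (x : S) : Function.Injective
    (mfderiv 𝓘(ℝ, EuclideanSpace ℝ (Fin 2)) 𝓘(ℝ, EuclideanSpace ℝ (Fin N)) F x) := by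
  rw [injective_iff_map_eq_zero]
  intro v hv
  have h := hiso x v
  rw [hv] at h
  have h2 : ‖v‖ = 0 := by
    rw [← h]
    exact norm_zero
  exact norm_eq_zero.1 h2

/-- `F` in a chart -/
noncomputable def XF (F : S → EuclideanSpace ℝ (Fin N)) (x : S) :
    EuclideanSpace ℝ (Fin 2) → EuclideanSpace ℝ (Fin N) :=
  F ∘ (extChartAt 𝓘(ℝ, EuclideanSpace ℝ (Fin 2)) x).symm

theorem XF_smooth (hF : ContMDiff 𝓘(ℝ, EuclideanSpace ℝ (Fin 2)) 𝓘(ℝ, EuclideanSpace ℝ (Fin N)) ∞ F)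
    (x : S) : ContDiffOn ℝ ∞ (XF F x) (extChartAt 𝓘(ℝ, EuclideanSpace ℝ (Fin 2)) x).target := by
  rw [← contMDiffOn_iff_contDiffOn]
  exact hF.comp_contMDiffOn (contMDiffOn_extChartAt_symm x)

theorem XF_inj (hF : ContMDiff 𝓘(ℝ, EuclideanSpace ℝ (Fin 2)) 𝓘(ℝ, EuclideanSpace ℝ (Fin N)) ∞ F)
    (hiso : Iso F) (x : S) (u : EuclideanSpace ℝ (Fin 2))
    (hu : u ∈ (extChartAt 𝓘(ℝ, EuclideanSpace ℝ (Fin 2)) x).target) :
    Function.Injective (fderiv ℝ (XF F x) u) := by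
  have h1 : MDifferentiableAt 𝓘(ℝ, EuclideanSpace ℝ (Fin 2)) 𝓘(ℝ, EuclideanSpace ℝ (Fin N)) F
      ((extChartAt 𝓘(ℝ, EuclideanSpace ℝ (Fin 2)) x).symm u) :=
    hF.mdifferentiableAt (by simp)
  have h2 := mdifferentiableWithinAt_extChartAt_symm (I := 𝓘(ℝ, EuclideanSpace ℝ (Fin 2))) hu
  have h3 := isInvertible_mfderivWithin_extChartAt_symm (I := 𝓘(ℝ, EuclideanSpace ℝ (Fin 2))) hu
  simp only [modelWithCornersSelf_coe, range_id, mfderivWithin_univ,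
    mdifferentiableWithinAt_univ] at h2 h3
  have h4 := mfderiv_comp u h1 h2
  have h5 : fderiv ℝ (XF F x) u = mfderiv 𝓘(ℝ, EuclideanSpace ℝ (Fin 2))
      𝓘(ℝ, EuclideanSpace ℝ (Fin N)) (F ∘ (extChartAt 𝓘(ℝ, EuclideanSpace ℝ (Fin 2)) x).symm) u := by
    rw [mfderiv_eq_fderiv]; rfl
  rw [h5, h4]
  intro a b hab
  exact h3.injective (mfderiv_inj hiso _ hab)

theorem local_inv
    (hF : ContMDiff 𝓘(ℝ, EuclideanSpace ℝ (Fin 2)) 𝓘(ℝ, EuclideanSpace ℝ (Fin N)) ∞ F)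
    (hiso : Iso F) (x : S) : ∃ υ : EuclideanSpace ℝ (Fin N) → EuclideanSpace ℝ (Fin 2),
      ContDiffAt ℝ ∞ υ (F x) ∧
      ∀ᶠ y in 𝓝 x, υ (F y) = extChartAt 𝓘(ℝ, EuclideanSpace ℝ (Fin 2)) x y := by
  have hW : IsOpen (extChartAt 𝓘(ℝ, EuclideanSpace ℝ (Fin 2)) x).target :=
    isOpen_extChartAt_target x
  have hx0 := mem_extChartAt_target (I := 𝓘(ℝ, EuclideanSpace ℝ (Fin 2))) x
  have hXx : XF F x (extChartAt 𝓘(ℝ, EuclideanSpace ℝ (Fin 2)) x x) = F x := by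
    unfold XF
    rw [Function.comp_apply, extChartAt_to_inv]
  obtain ⟨υ, N1, T, hN, hpN, hT, hpT, hυ, hυ0, hυW, hG, huniq⟩ :=
    T1.local_proj hW (XF_smooth hF x) hx0 (XF_inj hF hiso x _ hx0)
  rw [hXx] at hpN hpT hυ0
  refine ⟨υ, hυ.contDiffAt (hN.mem_nhds hpN), ?_⟩
  have hc : ContinuousAt (fun y => (F y, extChartAt 𝓘(ℝ, EuclideanSpace ℝ (Fin 2)) x y)) x :=
    hF.continuous.continuousAt.prodMk (continuousAt_extChartAt x)
  filter_upwards [hc.preimage_mem_nhds (hT.mem_nhds hpT), extChartAt_source_mem_nhds (I := 𝓘(ℝ, EuclideanSpace ℝ (Fin 2))) x] with y hy hys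
  have hXy : XF F x (extChartAt 𝓘(ℝ, EuclideanSpace ℝ (Fin 2)) x y) = F y := by
    unfold XF
    rw [Function.comp_apply, (extChartAt 𝓘(ℝ, EuclideanSpace ℝ (Fin 2)) x).left_inv hys]
  have h1 : T1.G (XF F x) (F y, extChartAt 𝓘(ℝ, EuclideanSpace ℝ (Fin 2)) x y) = 0 := by
    unfold T1.G
    simp only
    rw [hXy, sub_self, map_zero]
  exact (huniq _ hy h1).symm

theorem isSurface_range [CompactSpace S]
    (hF : ContMDiff 𝓘(ℝ, EuclideanSpace ℝ (Fin 2)) 𝓘(ℝ, EuclideanSpace ℝ (Fin N)) ∞ F)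
    (hinj : Function.Injective F) (hiso : Iso F) : IsSurface (range F) := by
  rintro _ ⟨x, rfl⟩
  have : Nonempty S := ⟨x⟩
  set φ := extChartAt 𝓘(ℝ, EuclideanSpace ℝ (Fin 2)) x with hφ
  have hso : IsOpen φ.source := isOpen_extChartAt_source x
  have hcl : IsClosed (F '' φ.sourceᶜ) := (hso.isClosed_compl.isCompact.image hF.continuous).isClosed
  have hce : IsClosedEmbedding F := hF.continuous.isClosedEmbedding hinj
  have hinv : ∀ y, Function.invFun F (F y) = y := Function.leftInverse_invFun hinj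
  have hmemV : ∀ y, F y ∈ (F '' φ.sourceᶜ)ᶜ ↔ y ∈ φ.source := by
    intro y
    rw [mem_compl_iff, mem_image]
    constructor
    · intro h
      by_contra hy
      exact h ⟨y, hy, rfl⟩
    · rintro h ⟨z, hz, hzy⟩
      exact hz (hinj hzy ▸ h)
  refine ⟨(F '' φ.sourceᶜ)ᶜ, φ.target, XF F x, fun p => φ (Function.invFun F p), hcl.isOpen_compl,
    ?_, isOpen_extChartAt_target x, XF_smooth hF x, fun u hu => XF_inj hF hiso x u hu, ?_, ?_, ?_⟩
  · exact (hmemV x).2 (mem_extChartAt_source x)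
  · ext p
    constructor
    · rintro ⟨u, hu, rfl⟩
      exact ⟨⟨φ.symm u, rfl⟩, (hmemV _).2 (φ.map_target hu)⟩
    · rintro ⟨⟨y, rfl⟩, hy⟩
      have hy' := (hmemV y).1 hy
      refine ⟨φ y, φ.map_source hy', ?_⟩
      show F (φ.symm (φ y)) = F y
      rw [φ.left_inv hy']
  · intro u hu
    show φ (Function.invFun F (F (φ.symm u))) = u
    rw [hinv, φ.right_inv hu]
  · have h1 : ContinuousOn (Function.invFun F) (range F) := by
      rintro _ ⟨y, rfl⟩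
      unfold ContinuousWithinAt
      rw [hinv, ← hce.isEmbedding.map_nhds_eq, tendsto_map'_iff]
      exact tendsto_id.congr (fun z => (hinv z).symm)
    have h2 : ContinuousOn φ φ.source := continuousOn_extChartAt x
    refine h2.comp (h1.mono inter_subset_left) ?_
    rintro _ ⟨⟨y, rfl⟩, hy⟩
    rw [hinv]
    exact (hmemV y).1 hy

theorem invFun_continuousOn [CompactSpace S] [Nonempty S] (hF : Continuous F)
    (hinj : Function.Injective F) : ContinuousOn (Function.invFun F) (range F) := by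
  have hinv : ∀ y, Function.invFun F (F y) = y := Function.leftInverse_invFun hinj
  rintro _ ⟨y, rfl⟩
  unfold ContinuousWithinAt
  rw [hinv, ← (hF.isClosedEmbedding hinj).isEmbedding.map_nhds_eq, tendsto_map'_iff]
  exact tendsto_id.congr (fun z => (hinv z).symm)

/-- curves in the image can be lifted -/
theorem lift_cmdiff [CompactSpace S] [Nonempty S]
    (hF : ContMDiff 𝓘(ℝ, EuclideanSpace ℝ (Fin 2)) 𝓘(ℝ, EuclideanSpace ℝ (Fin N)) ∞ F)
    (hinj : Function.Injective F) (hiso : Iso F) {c : ℝ → EuclideanSpace ℝ (Fin N)} {s : Set ℝ}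
    (hc : ContDiffOn ℝ 1 c s) (hm : ∀ t ∈ s, c t ∈ range F) :
    ContMDiffOn 𝓘(ℝ, ℝ) 𝓘(ℝ, EuclideanSpace ℝ (Fin 2)) 1 (fun t => Function.invFun F (c t)) s := by
  have hinv : ∀ y, Function.invFun F (F y) = y := Function.leftInverse_invFun hinj
  intro t ht
  obtain ⟨x, hx⟩ := hm t ht
  have hx' : Function.invFun F (c t) = x := by rw [← hx, hinv]
  obtain ⟨υ, hυ, hev⟩ := local_inv hF hiso x
  have hcont : ContinuousWithinAt (fun t => Function.invFun F (c t)) s t :=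
    ((invFun_continuousOn hF.continuous hinj) (c t) ⟨x, hx⟩).comp (hc.continuousOn t ht) hm
  rw [contMDiffWithinAt_iff]
  refine ⟨hcont, ?_⟩
  simp only [extChartAt_model_space_eq_id, PartialEquiv.refl_coe, PartialEquiv.refl_symm,
    modelWithCornersSelf_coe, range_id, preimage_id, inter_univ, id_eq, Function.comp_def]
  rw [hx']
  have h1 : ContDiffWithinAt ℝ 1 (fun t => υ (c t)) s t := by
    rw [hx] at hυ
    exact (hυ.of_le (by exact_mod_cast le_top)).comp_contDiffWithinAt t (hc t ht)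
  refine h1.congr_of_eventuallyEq ?_ ?_
  · have h2 : ∀ᶠ s' in 𝓝[s] t, υ (F (Function.invFun F (c s'))) =
      extChartAt 𝓘(ℝ, EuclideanSpace ℝ (Fin 2)) x (Function.invFun F (c s')) := by
      have := hcont.tendsto
      rw [hx'] at this
      exact this.eventually hev
    filter_upwards [h2, self_mem_nhdsWithin] with s' hs' hs''
    rw [← hs', Function.invFun_eq (hm s' hs'')]
  · rw [hx', ← hx]
    exact hev.self_of_nhds.symm

/-- length of a path through its image -/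
theorem pathELength_eq
    (hF : ContMDiff 𝓘(ℝ, EuclideanSpace ℝ (Fin 2)) 𝓘(ℝ, EuclideanSpace ℝ (Fin N)) ∞ F)
    (hiso : Iso F) {γ : ℝ → S} {a b : ℝ} (hab : a < b)
    (hγ : ContMDiffOn 𝓘(ℝ, ℝ) 𝓘(ℝ, EuclideanSpace ℝ (Fin 2)) 1 γ (Icc a b)) :
    pathELength 𝓘(ℝ, EuclideanSpace ℝ (Fin 2)) γ a b =
      ∫⁻ t in Icc a b, ‖derivWithin (fun t => F (γ t)) (Icc a b) t‖ₑ := by
  rw [pathELength_eq_lintegral_mfderivWithin_Icc]
  refine MeasureTheory.setLIntegral_congr_fun measurableSet_Icc (fun t ht => ?_)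
  have hU : UniqueMDiffWithinAt 𝓘(ℝ, ℝ) (Icc a b) t := by
    rw [uniqueMDiffWithinAt_iff_uniqueDiffWithinAt]
    exact uniqueDiffOn_Icc hab t ht
  have h1 : mfderivWithin 𝓘(ℝ, ℝ) 𝓘(ℝ, EuclideanSpace ℝ (Fin N)) (F ∘ γ) (Icc a b) t =
      (mfderiv 𝓘(ℝ, EuclideanSpace ℝ (Fin 2)) 𝓘(ℝ, EuclideanSpace ℝ (Fin N)) F (γ t)) ∘L
        (mfderivWithin 𝓘(ℝ, ℝ) 𝓘(ℝ, EuclideanSpace ℝ (Fin 2)) γ (Icc a b) t) :=
    mfderiv_comp_mfderivWithin _ (hF.mdifferentiableAt (by simp))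
      (hγ.mdifferentiableOn one_ne_zero t ht) hU
  have h2 : derivWithin (fun t => F (γ t)) (Icc a b) t =
      @id (EuclideanSpace ℝ (Fin N)) (mfderiv 𝓘(ℝ, EuclideanSpace ℝ (Fin 2))
        𝓘(ℝ, EuclideanSpace ℝ (Fin N)) F (γ t)
        (mfderivWithin 𝓘(ℝ, ℝ) 𝓘(ℝ, EuclideanSpace ℝ (Fin 2)) γ (Icc a b) t (1 : ℝ))) := by
    have h3 : derivWithin (fun t => F (γ t)) (Icc a b) t =
      (mfderivWithin 𝓘(ℝ, ℝ) 𝓘(ℝ, EuclideanSpace ℝ (Fin N)) (F ∘ γ) (Icc a b) t) (1 : ℝ) := by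
      rw [mfderivWithin_eq_fderivWithin, ← fderivWithin_derivWithin]
      rfl
    rw [h3, h1]
    rfl
  rw [h2]
  have h4 := hiso (γ t) (mfderivWithin 𝓘(ℝ, ℝ) 𝓘(ℝ, EuclideanSpace ℝ (Fin 2)) γ (Icc a b) t (1 : ℝ))
  rw [← ofReal_norm, ← ofReal_norm, h4]
  rfl

end Pool.Agent.TH925.SN
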