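import Pool.Agent.TH925.SN.A

set_option autoImplicit false
set_option linter.unusedVariables false
set_option linter.unusedSectionVars false

open Bundle Set Metric Filter Topology Manifold
open scoped ContDiff InnerProductSpace Manifold ENNReal

namespace Pool.Agent.TH925.SN

open Pool.Agent.H864R3

variable {S : Type} [MetricSpace S] [ChartedSpace (EuclideanSpace ℝ (Fin 2)) S]
    [IsManifold 𝓘(ℝ, EuclideanSpace ℝ (Fin 2)) ∞ S]
    [RiemannianBundle (fun x : S => TangentSpace 𝓘(ℝ, EuclideanSpace ℝ (Fin 2)) x)]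
    [IsContMDiffRiemannianBundle 𝓘(ℝ, EuclideanSpace ℝ (Fin 2)) ∞ (EuclideanSpace ℝ (Fin 2))
      (fun x : S => TangentSpace 𝓘(ℝ, EuclideanSpace ℝ (Fin 2)) x)]
    [IsRiemannianManifold 𝓘(ℝ, EuclideanSpace ℝ (Fin 2)) S]
    {N : ℕ} {F : S → EuclideanSpace ℝ (Fin N)}

/-- almost minimizing paths -/
theorem exists_path
    (hF : ContMDiff 𝓘(ℝ, EuclideanSpace ℝ (Fin 2)) 𝓘(ℝ, EuclideanSpace ℝ (Fin N)) ∞ F)
    (hiso : Iso F) {x y : S} {r : ℝ} (hr : dist x y < r) :
    ∃ γ : ℝ → S, γ 0 = x ∧ γ 1 = y ∧ ContDiffOn ℝ 1 (fun t => F (γ t)) (Icc 0 1) ∧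
      ∫⁻ t in Icc (0 : ℝ) 1, ‖derivWithin (fun t => F (γ t)) (Icc 0 1) t‖ₑ < ENNReal.ofReal r := by
  have h1 : riemannianEDist 𝓘(ℝ, EuclideanSpace ℝ (Fin 2)) x y < ENNReal.ofReal r := by
    rw [← IsRiemannianManifold.out (I := 𝓘(ℝ, EuclideanSpace ℝ (Fin 2))) x y, edist_dist]
    exact (ENNReal.ofReal_lt_ofReal_iff (dist_nonneg.trans_lt hr)).2 hr
  obtain ⟨γ, h0, h1', hγ, hlen⟩ := exists_lt_of_riemannianEDist_lt h1
  refine ⟨γ, h0, h1', ?_, ?_⟩
  · rw [← contMDiffOn_iff_contDiffOn]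
    exact (hF.of_le (by exact_mod_cast le_top)).comp_contMDiffOn hγ
  · rwa [pathELength_eq hF hiso zero_lt_one hγ] at hlen

theorem norm_sub_le_dist
    (hF : ContMDiff 𝓘(ℝ, EuclideanSpace ℝ (Fin 2)) 𝓘(ℝ, EuclideanSpace ℝ (Fin N)) ∞ F)
    (hiso : Iso F) (x y : S) : ‖F x - F y‖ ≤ dist x y := by
  refine le_of_forall_gt fun r hr => ?_
  obtain ⟨γ, h0, h1, hc, hl⟩ := exists_path hF hiso hr
  have h2 := enorm_sub_le_lintegral_derivWithin_Icc_of_contDiffOn_Icc hc zero_le_one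
  have h3 := h2.trans_lt hl
  simp only [h0, h1] at h3
  rw [← ofReal_norm, ENNReal.ofReal_lt_ofReal_iff (dist_nonneg.trans_lt hr)] at h3
  rw [norm_sub_rev]
  exact h3

/-- upper bound for the distance -/
theorem dist_le_len [CompactSpace S]
    (hF : ContMDiff 𝓘(ℝ, EuclideanSpace ℝ (Fin 2)) 𝓘(ℝ, EuclideanSpace ℝ (Fin N)) ∞ F)
    (hinj : Function.Injective F) (hiso : Iso F) {R : RS (EuclideanSpace ℝ (Fin N))}
    (hR : R.S = range F) (L : LE R) (x y : S) (hxy : ‖F x - F y‖ < L.ρ) :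
    dist x y ≤ L.len (F x, F y) := by
  rcases eq_or_ne x y with rfl | hne
  · rw [dist_self]; exact norm_nonneg _
  have : Nonempty S := ⟨x⟩
  have hinv : ∀ y, Function.invFun F (F y) = y := Function.leftInverse_invFun hinj
  have hx : F x ∈ R.S := hR ▸ ⟨x, rfl⟩
  have hy : F y ∈ R.S := hR ▸ ⟨y, rfl⟩
  have hne' : F x ≠ F y := fun h => hne (hinj h)
  obtain ⟨n, hn⟩ := L.exists_frame hx hy hxy hne'
  obtain ⟨p1, p2⟩ := L.Φ_frame hx hy hxy hne' hn
  set f : EuclideanSpace ℝ (Fin N) × EuclideanSpace ℝ (Fin N) × EuclideanSpace ℝ (Fin N) :=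
    (F x, L.u (F x, F y), n) with hf
  set c : ℝ → EuclideanSpace ℝ (Fin N) := fun t => (R.Φ t f).1 with hc
  have hlpos : 0 < L.len (F x, F y) := L.W_ne hx hy hxy hne'
  have hcs : ContDiff ℝ ∞ c := (T8.geod_of_frame R hn univ).smooth
  have hcm : ∀ t, c t ∈ range F := fun t => by
    rw [← hR]; exact (R.Φ_FB hn t).1
  have hlift := lift_cmdiff hF hinj hiso (c := c) (s := Icc 0 (L.len (F x, F y)))
    ((hcs.of_le (by exact_mod_cast le_top)).contDiffOn) (fun t _ => hcm t)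
  have h0 : Function.invFun F (c 0) = x := by
    have : c 0 = F x := by
      have := R.Φ_add 0 0 f
      have h2 : R.Φ 0 f = f := by
        have h3 := R.Φ_inv 0 f
        rw [neg_zero] at h3
        have h4 := R.Φ_add 0 0 f
        rw [add_zero] at h4
        rw [h4]; exact h3
      show (R.Φ 0 f).1 = F x
      rw [h2]
    rw [this, hinv]
  have h1 : Function.invFun F (c (L.len (F x, F y))) = y := by
    have : c (L.len (F x, F y)) = F y := p1
    rw [this, hinv]
  have h2 := riemannianEDist_le_pathELength hlift h0 h1 hlpos.le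
  rw [← IsRiemannianManifold.out (I := 𝓘(ℝ, EuclideanSpace ℝ (Fin 2))) x y,
    pathELength_eq hF hiso hlpos hlift] at h2
  have h3 : ∫⁻ t in Icc (0 : ℝ) (L.len (F x, F y)),
      ‖derivWithin (fun t => F (Function.invFun F (c t))) (Icc 0 (L.len (F x, F y))) t‖ₑ =
      ENNReal.ofReal (L.len (F x, F y)) := by
    have h4 : ∀ t ∈ Icc (0 : ℝ) (L.len (F x, F y)),
        ‖derivWithin (fun t => F (Function.invFun F (c t))) (Icc 0 (L.len (F x, F y))) t‖ₑ = 1 := by
      intro t ht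
      have h5 : (fun t => F (Function.invFun F (c t))) = c := by
        funext t
        exact Function.invFun_eq (hcm t)
      rw [h5, (hcs.differentiable (by simp) t).derivWithin (uniqueDiffOn_Icc hlpos t ht),
        ← ofReal_norm, (T8.geod_of_frame R hn univ).unit t (mem_univ t), ENNReal.ofReal_one]
    rw [MeasureTheory.setLIntegral_congr_fun measurableSet_Icc h4]
    simp
  rw [h3, edist_dist, ENNReal.ofReal_le_ofReal_iff hlpos.le] at h2
  exact h2

/-- lower bound for the length of a path -/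
theorem len_le_path {R : RS (EuclideanSpace ℝ (Fin N))} (L : LE R)
    {z : ℝ → EuclideanSpace ℝ (Fin N)} (hz : ContDiffOn ℝ 1 z (Icc 0 1)) (hzS : ∀ t, z t ∈ R.S)
    {r : ℝ} (hr : r ≤ L.ρ)
    (hlen : ∫⁻ t in Icc (0 : ℝ) 1, ‖derivWithin z (Icc 0 1) t‖ₑ < ENNReal.ofReal r) :
    L.len (z 0, z 1) ≤ r := by
  have hr0 : 0 < r := by
    by_contra h
    rw [ENNReal.ofReal_of_nonpos (not_lt.1 h)] at hlen
    exact not_lt_zero hlen
  -- the speed
  set g0 : ℝ → ℝ := fun t => ‖derivWithin z (Icc 0 1) t‖ with hg0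
  have hg0c : ContinuousOn g0 (Icc 0 1) :=
    (hz.continuousOn_derivWithin (uniqueDiffOn_Icc zero_lt_one) (by simp)).norm
  set g1 : ℝ → ℝ := fun t => g0 (projIcc 0 1 zero_le_one t) with hg1
  have hg1c : Continuous g1 := by
    have := hg0c.domRestrict.Icc_extend' (h := zero_le_one)
    exact this
  have hg1e : ∀ t ∈ Icc (0:ℝ) 1, g1 t = g0 t := by
    intro t ht
    simp only [hg1]
    rw [projIcc_of_mem zero_le_one ht]
  have hg1n : ∀ t, 0 ≤ g1 t := fun t => norm_nonneg _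
  set A : ℝ → ℝ := fun t => ∫ s in (0:ℝ)..t, g1 s with hA
  have hAd : ∀ t, HasDerivAt A (g1 t) t := fun t =>
    intervalIntegral.integral_hasDerivAt_right (hg1c.intervalIntegrable _ _)
      (hg1c.stronglyMeasurableAtFilter _ _) hg1c.continuousAt
  have hAc : Continuous A := continuous_iff_continuousAt.2 fun t => (hAd t).continuousAt
  have hA0 : A 0 = 0 := by simp [hA]
  have hAmono : Monotone A := monotone_of_deriv_nonneg (fun t => (hAd t).differentiableAt)
    (fun t => by rw [(hAd t).deriv]; exact hg1n t)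
  have hA1 : A 1 < r := by
    have h1 : ENNReal.ofReal (A 1) = ∫⁻ t in Icc (0 : ℝ) 1, ‖derivWithin z (Icc 0 1) t‖ₑ := by
      have h2 : A 1 = ∫ t in Icc (0:ℝ) 1, g1 t := by
        rw [MeasureTheory.integral_Icc_eq_integral_Ioc, ← intervalIntegral.integral_of_le zero_le_one]
      rw [h2, MeasureTheory.ofReal_integral_eq_lintegral_ofReal
        (hg1c.integrableOn_Icc) (Eventually.of_forall hg1n)]
      refine MeasureTheory.setLIntegral_congr_fun measurableSet_Icc fun t ht => ?_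
      rw [hg1e t ht, ← ofReal_norm]
    rw [← h1] at hlen
    exact (ENNReal.ofReal_lt_ofReal_iff hr0).1 hlen
  have hzd : ∀ t ∈ Icc (0:ℝ) 1, HasDerivWithinAt z (derivWithin z (Icc 0 1) t) (Icc 0 1) t :=
    fun t ht => (hz.differentiableOn (by simp) t ht).hasDerivWithinAt
  have hdist : ∀ t ∈ Icc (0:ℝ) 1, ‖z t - z 0‖ ≤ A t := by
    have := image_norm_le_of_norm_deriv_right_le_deriv_boundary (f := fun t => z t - z 0)
      (f' := fun t => derivWithin z (Icc 0 1) t) (a := 0) (b := 1) (B := A) (B' := g1)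
      (hz.continuousOn.sub continuousOn_const) ?_ (by simp [hA0]) hAd ?_
    · exact fun t ht => this ht
    · intro t ht
      have h1 := ((hzd t ⟨ht.1, ht.2.le⟩).sub_const (z 0)).mono_of_mem_nhdsWithin
        (Icc_mem_nhdsGE_of_mem ht)
      exact h1
    · intro t ht
      rw [hg1e t ⟨ht.1, ht.2.le⟩]
  have hclose : ∀ t ∈ Icc (0:ℝ) 1, ‖z 0 - z t‖ < L.ρ := by
    intro t ht
    rw [norm_sub_rev]
    exact ((hdist t ht).trans (hAmono ht.2)).trans_lt (hA1.trans_le hr)
  -- the length function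
  set h : ℝ → ℝ := fun t => L.len (z 0, z t) with hh
  have hhc : ContinuousOn h (Icc 0 1) := by
    intro t ht
    have h1 : ContinuousWithinAt (fun t => (z 0, z t)) (Icc 0 1) t :=
      continuousWithinAt_const.prodMk (hz.continuousOn t ht)
    have h2 := L.W_contAt (hzS 0) (hzS t) (hclose t ht)
    exact (h2.comp_continuousWithinAt (f := fun t => (z 0, z t)) h1).norm
  have hhd : ∀ t ∈ Ioo (0:ℝ) 1, z 0 ≠ z t → ∃ d, HasDerivAt h d t ∧ d ≤ g1 t := by
    intro t ht hne
    have ht' : t ∈ Icc (0:ℝ) 1 := ⟨ht.1.le, ht.2.le⟩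
    have h1 : HasDerivAt z (derivWithin z (Icc 0 1) t) t :=
      (hzd t ht').hasDerivAt (Icc_mem_nhds ht.1 ht.2)
    have h2 : HasDerivAt (fun τ => z (t + τ)) (derivWithin z (Icc 0 1) t) 0 := by
      have : HasDerivAt z (derivWithin z (Icc 0 1) t) (t + 0) := by rwa [add_zero]
      exact this.comp_const_add t 0
    have h3 := T4.first_variation L (x := fun _ => z 0) (y := fun τ => z (t + τ))
      (hasDerivAt_const 0 (z 0)) h2 (Eventually.of_forall fun _ => hzS 0)
      (Eventually.of_forall fun _ => hzS _) (by simpa using hclose t ht') (by simpa using hne)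
    simp only [add_zero, inner_zero_left, sub_zero] at h3
    refine ⟨⟪derivWithin z (Icc 0 1) t, L.w (z 0, z t)⟫_ℝ, ?_, ?_⟩
    · have h4 : HasDerivAt (fun τ => L.len (z 0, z (t + τ)))
          (⟪derivWithin z (Icc 0 1) t, L.w (z 0, z t)⟫_ℝ) (-t + t) := by
        rwa [neg_add_cancel]
      have h5 := h4.comp_const_add (-t) t
      refine h5.congr_of_eventuallyEq (Eventually.of_forall fun s => ?_)
      show L.len (z 0, z s) = L.len (z 0, z (t + (-t + s)))
      congr 3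
      ring
    · rw [hg1e t ht']
      obtain ⟨n, hn⟩ := L.exists_frame (hzS 0) (hzS t) (hclose t ht') hne
      have hw : ‖L.w (z 0, z t)‖ = 1 := by
        rw [← (L.Φ_frame (hzS 0) (hzS t) (hclose t ht') hne hn).2]
        exact (R.Φ_FB hn _).2.2.2.1
      calc ⟪derivWithin z (Icc 0 1) t, L.w (z 0, z t)⟫_ℝ
          ≤ ‖derivWithin z (Icc 0 1) t‖ * ‖L.w (z 0, z t)‖ := real_inner_le_norm _ _
        _ = _ := by rw [hw, mul_one]
  -- last time at the starting point
  set K : Set ℝ := {t | t ∈ Icc (0:ℝ) 1 ∧ z t = z 0} with hK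
  have hKc : IsCompact K := by
    have h1 : K = Icc (0:ℝ) 1 ∩ z ⁻¹' {z 0} := by ext t; simp [hK]
    rw [h1]
    exact isCompact_Icc.of_isClosed_subset (hz.continuousOn.preimage_isClosed_of_isClosed
      isClosed_Icc isClosed_singleton) inter_subset_left
  have hKn : K.Nonempty := ⟨0, ⟨le_rfl, zero_le_one⟩, rfl⟩
  obtain ⟨t0, ht0, hmax⟩ := hKc.exists_isMaxOn hKn continuousOn_id
  obtain ⟨ht0I, ht0z⟩ := ht0
  have hnz : ∀ t ∈ Ioo t0 1, z 0 ≠ z t := by
    intro t ht he
    have : t ∈ K := ⟨⟨ht0I.1.trans ht.1.le, ht.2.le⟩, he.symm⟩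
    exact absurd (hmax this) (not_le.2 ht.1)
  have hmono : MonotoneOn (fun t => A t - h t) (Icc t0 1) := by
    refine monotoneOn_of_deriv_nonneg (convex_Icc t0 1) ?_ ?_ ?_
    · exact hAc.continuousOn.sub (hhc.mono (Icc_subset_Icc_left ht0I.1))
    · rw [interior_Icc]
      intro t ht
      obtain ⟨d, hd, -⟩ := hhd t ⟨ht0I.1.trans_lt ht.1, ht.2⟩ (hnz t ht)
      exact ((hAd t).sub hd).differentiableAt.differentiableWithinAt
    · rw [interior_Icc]
      intro t ht
      obtain ⟨d, hd, hle⟩ := hhd t ⟨ht0I.1.trans_lt ht.1, ht.2⟩ (hnz t ht)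
      have h5 : HasDerivAt (fun t => A t - h t) (g1 t - d) t := (hAd t).sub hd
      rw [h5.deriv]
      linarith
  have h1 := hmono (left_mem_Icc.2 ht0I.2) (right_mem_Icc.2 ht0I.2) ht0I.2
  have h2 : h t0 = 0 := by
    show ‖L.W (z 0, z t0)‖ = 0
    rw [ht0z, L.W_self (hzS 0), norm_zero]
  have h3 : 0 ≤ A t0 := by rw [← hA0]; exact hAmono ht0I.1
  simp only at h1
  show h 1 ≤ r
  linarith

/-- the distance is the length of the short geodesic -/
theorem dist_eq_len [CompactSpace S]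
    (hF : ContMDiff 𝓘(ℝ, EuclideanSpace ℝ (Fin 2)) 𝓘(ℝ, EuclideanSpace ℝ (Fin N)) ∞ F)
    (hinj : Function.Injective F) (hiso : Iso F) {R : RS (EuclideanSpace ℝ (Fin N))}
    (hR : R.S = range F) (L : LE R) (x y : S) (hxy : dist x y < L.ρ) :
    dist x y = L.len (F x, F y) := by
  refine le_antisymm (dist_le_len hF hinj hiso hR L x y
    ((norm_sub_le_dist hF hiso x y).trans_lt hxy)) ?_
  refine le_of_forall_gt fun r hr => ?_
  obtain ⟨r', hr1, hr2⟩ := exists_between (lt_min hr hxy)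
  obtain ⟨γ, h0, h1, hc, hl⟩ := exists_path hF hiso hr1
  have h2 := len_le_path L hc (fun t => by rw [hR]; exact ⟨γ t, rfl⟩)
    (hr2.le.trans (min_le_right _ _)) hl
  simp only [h0, h1] at h2
  exact h2.trans_lt (hr2.trans_le (min_le_left _ _))

end Pool.Agent.TH925.SN
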