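import Pool.Agent.TH925.SN.B

set_option autoImplicit false
set_option linter.unusedVariables false
set_option linter.unusedSectionVars false

open Bundle Set Metric Filter Topology Manifold
open scoped ContDiff InnerProductSpace Manifold ENNReal

namespace Pool.Agent.TH925.SN

open Pool.Agent.H864R3

section Geod

variable {E : Type} [NormedAddCommGroup E] [InnerProductSpace ℝ E] [FiniteDimensional ℝ E]
  {R : RS E}

/-- a curve in the surface with given tangent vector -/
theorem curve_deriv (R : RS E) {x : E} (hx : x ∈ R.S) (w : E) :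
    HasDerivAt (fun τ : ℝ => R.π (x + τ • w)) (R.P x w) 0 := by
  have h1 : HasDerivAt (fun τ : ℝ => x + τ • w) w 0 := by
    have := ((hasDerivAt_id (0:ℝ)).smul_const w).const_add x
    simpa using this
  have h2 : HasFDerivAt R.π (R.P x) (x + (0:ℝ) • w) := by
    rw [zero_smul, add_zero]; exact R.hasFDerivAt_π x
  exact h2.comp_hasDerivAt 0 h1

theorem curve_mem (R : RS E) {x : E} (hx : x ∈ R.S) (w : E) :
    ∀ᶠ τ : ℝ in 𝓝 0, R.π (x + τ • w) ∈ R.S := by
  have h1 : ContinuousAt (fun τ : ℝ => x + τ • w) 0 := by fun_prop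
  have h2 : R.U ∈ 𝓝 (x + (0:ℝ) • w) := by
    rw [zero_smul, add_zero]; exact R.hU.mem_nhds (R.hSU hx)
  filter_upwards [h1.preimage_mem_nhds h2] with τ hτ
  exact R.hπU _ hτ

theorem tanVec_P (R : RS E) {x : E} (hx : x ∈ R.S) (w : E) : TanVec R.S x (R.P x w) := by
  refine ⟨fun τ : ℝ => R.π (x + τ • w), ?_, ?_, curve_mem R hx w, curve_deriv R hx w⟩
  · exact R.smooth.comp (contDiff_const.add (contDiff_id.smul contDiff_const))
  · simp only [zero_smul, add_zero]
    exact R.hπS x hx

/-- the acceleration of a geodesic -/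
theorem geod_acc {c : ℝ → E} {a b : ℝ} (hab : a < b) (hc : IsGeod R.S c (Icc a b)) :
    (∀ t ∈ Icc a b, R.P (c t) (deriv c t) = deriv c t) ∧
    ∀ t ∈ Icc a b, deriv (deriv c) t = R.B (c t) (deriv c t) (deriv c t) := by
  have hcs := hc.smooth
  have hc1 : ContDiff ℝ ∞ (deriv c) := by
    have := (contDiff_infty_iff_deriv.1 hcs).2
    exact this
  have hc2 : ContDiff ℝ ∞ (deriv (deriv c)) := (contDiff_infty_iff_deriv.1 hc1).2
  have hd : ∀ t, HasDerivAt c (deriv c t) t := fun t => (hcs.differentiable (by simp) t).hasDerivAt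
  have hd1 : ∀ t, HasDerivAt (deriv c) (deriv (deriv c) t) t :=
    fun t => (hc1.differentiable (by simp) t).hasDerivAt
  have hcl : closure (Ioo a b) = Icc a b := closure_Ioo hab.ne
  have e1 : ∀ t ∈ Ioo a b, R.P (c t) (deriv c t) = deriv c t := by
    intro t ht
    have h1 : HasDerivAt (fun t => R.π (c t)) (R.P (c t) (deriv c t)) t :=
      (R.hasFDerivAt_π (c t)).comp_hasDerivAt t (hd t)
    have h2 : (fun t => R.π (c t)) =ᶠ[𝓝 t] c := by
      filter_upwards [Icc_mem_nhds ht.1 ht.2] with s hs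
      exact R.hπS _ (hc.mem s hs)
    exact (h1.congr_of_eventuallyEq h2.symm).unique (hd t)
  have e1' : ∀ t ∈ Icc a b, R.P (c t) (deriv c t) = deriv c t := by
    have h1 : IsClosed {t | R.P (c t) (deriv c t) = deriv c t} :=
      isClosed_eq ((R.P_cont.comp hcs.continuous).clm_apply hc1.continuous) hc1.continuous
    have h2 := h1.closure_subset_iff.2 (show Ioo a b ⊆ _ from e1)
    rw [hcl] at h2
    exact h2
  refine ⟨e1', ?_⟩
  have e2 : ∀ t ∈ Ioo a b, deriv (deriv c) t = R.B (c t) (deriv c t) (deriv c t) := by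
    intro t ht
    have h1 : HasDerivAt (fun t => R.P (c t)) (R.B (c t) (deriv c t)) t :=
      (R.hasFDerivAt_P (c t)).comp_hasDerivAt t (hd t)
    have h2 := h1.clm_apply (hd1 t)
    have h3 : (fun t => R.P (c t) (deriv c t)) =ᶠ[𝓝 t] deriv c := by
      filter_upwards [Ioo_mem_nhds ht.1 ht.2] with s hs
      exact e1 s hs
    have h4 := (h2.congr_of_eventuallyEq h3.symm).unique (hd1 t)
    have ht' : t ∈ Icc a b := ⟨ht.1.le, ht.2.le⟩
    have hx := hc.mem t ht'
    have h5 : R.P (c t) (deriv (deriv c) t) = 0 := by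
      have h6 := hc.geod t ht' _ (tanVec_P R hx (deriv (deriv c) t))
      have h7 : ⟪R.P (c t) (deriv (deriv c) t), R.P (c t) (deriv (deriv c) t)⟫_ℝ = 0 := by
        rw [R.inner_P hx, R.PP hx]
        exact h6
      exact inner_self_eq_zero.1 h7
    rw [h5, add_zero] at h4
    exact h4.symm
  have h1 : IsClosed {t | deriv (deriv c) t = R.B (c t) (deriv c t) (deriv c t)} :=
    isClosed_eq hc2.continuous
      (((R.B_cont.comp hcs.continuous).clm_apply hc1.continuous).clm_apply hc1.continuous)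
  have h2 := h1.closure_subset_iff.2 (show Ioo a b ⊆ _ from e2)
  rw [hcl] at h2
  exact h2

/-- third component does not matter -/
theorem Φ_third {f : E × E × E} (hf : f ∈ R.FB) (t : ℝ) :
    R.Φ t (f.1, f.2.1, 0) = ((R.Φ t f).1, (R.Φ t f).2.1, 0) := by
  have := R.Φ_scale (R.FB_sub_M hf one_le_two) (l := 1) (m := 0) (by simp) (by simp) t
  simpa using this

/-- a geodesic is an orbit of the flow -/
theorem geod_flow {c : ℝ → E} {a b : ℝ} (hab : a < b) (hc : IsGeod R.S c (Icc a b))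
    {s : ℝ} (hs : s ∈ Ico a b) {n : E} (hn : (c s, deriv c s, n) ∈ R.FB) :
    ∀ t ∈ Icc s b, c t = (R.Φ (t - s) (c s, deriv c s, n)).1 := by
  obtain ⟨hP, hA⟩ := geod_acc hab hc
  have hcs := hc.smooth
  have hc1 : ContDiff ℝ ∞ (deriv c) := (contDiff_infty_iff_deriv.1 hcs).2
  obtain ⟨K, hK⟩ := R.X_smooth.lipschitzWith_of_hasCompactSupport R.X_cpt (by simp)
  set y : ℝ → E × E × E := fun t => (c t, deriv c t, 0) with hy
  set z : ℝ → E × E × E := fun t => R.Φ (t - s) (c s, deriv c s, 0) with hz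
  have hM : ∀ t ∈ Icc a b, y t ∈ R.M 2 := by
    intro t ht
    refine ⟨hc.mem t ht, hP t ht, ?_, ?_, ?_⟩
    · show R.P (c t) 0 = 0
      rw [map_zero]
    · show ‖deriv c t‖ ≤ 2
      rw [hc.unit t ht]; norm_num
    · show ‖(0:E)‖ ≤ 2
      rw [norm_zero]; norm_num
  have hyd : ∀ t ∈ Icc a b, HasDerivAt y (R.X (y t)) t := by
    intro t ht
    rw [R.X_eq (hM t ht)]
    have h1 : HasDerivAt c (deriv c t) t := (hcs.differentiable (by simp) t).hasDerivAt
    have h2 : HasDerivAt (deriv c) (R.B (c t) (deriv c t) (deriv c t)) t := by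
      rw [← hA t ht]
      exact (hc1.differentiable (by simp) t).hasDerivAt
    have h3 := h1.prodMk (h2.prodMk (hasDerivAt_const t (0:E)))
    refine h3.congr_deriv ?_
    simp [RS.X0, hy]
  have hzd : ∀ t, HasDerivAt z (R.X (z t)) t := by
    intro t
    have h1 := R.Φ_deriv (c s, deriv c s, 0) (t - s)
    have h2 : HasDerivAt (fun t : ℝ => t - s) 1 t := (hasDerivAt_id t).sub_const s
    have h3 := h1.scomp t h2
    rw [one_smul] at h3
    exact h3
  have hsb : s ≤ b := hs.2.le
  have key : EqOn y z (Icc s b) := by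
    refine ODE_solution_unique_of_mem_Icc_right (v := fun _ => R.X) (s := fun _ => univ) (K := K)
      (fun t _ => hK.lipschitzOnWith) ?_ ?_ (fun _ _ => mem_univ _) ?_ ?_ (fun _ _ => mem_univ _) ?_
    · exact fun t ht => (hyd t ⟨hs.1.trans ht.1, ht.2⟩).continuousAt.continuousWithinAt
    · exact fun t ht => (hyd t ⟨hs.1.trans ht.1, ht.2.le⟩).hasDerivWithinAt
    · exact fun t ht => (hzd t).continuousAt.continuousWithinAt
    · exact fun t ht => (hzd t).hasDerivWithinAt
    · simp only [hy, hz, sub_self]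
      have h3 := R.Φ_inv 0 (c s, deriv c s, (0:E))
      rw [neg_zero] at h3
      have h4 := R.Φ_add 0 0 (c s, deriv c s, (0:E))
      rw [add_zero] at h4
      rw [h4, h3]
  intro t ht
  have h1 := key ht
  have h2 := Φ_third hn (t - s)
  simp only [hy, hz] at h1
  simp only at h2
  rw [h2] at h1
  exact congrArg (fun q : E × E × E => q.1) h1

/-- lengths along a geodesic -/
theorem geod_len (L : LE R) {c : ℝ → E} {a b : ℝ} (hc : IsGeod R.S c (Icc a b))
    {s t : ℝ} (hs : s ∈ Icc a b) (ht : t ∈ Icc a b) (hst : s < t) (hr : t - s < L.r) :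
    ‖c s - c t‖ < L.ρ ∧ L.len (c s, c t) = t - s := by
  have hab : a < b := hs.1.trans_lt (hst.trans_le ht.2)
  obtain ⟨hP, hA⟩ := geod_acc hab hc
  obtain ⟨n, hn⟩ := R.exists_frame (hc.mem s hs) (hP s hs) (hc.unit s hs)
  have h1 := geod_flow hab hc ⟨hs.1, hst.trans_le ht.2⟩ hn t ⟨hst.le, ht.2⟩
  obtain ⟨e1, e2, e3, e4⟩ := L.edge_of_frame hn (sub_pos.2 hst) hr
  simp only at e1 e2
  rw [← h1] at e1 e2
  exact ⟨e1.2.2.2.1, e2⟩

end Geod

end Pool.Agent.TH925.SN
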