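import Pool.Agent.TH925.SN.C

set_option autoImplicit false
set_option linter.unusedVariables false
set_option linter.unusedSectionVars false

open Bundle Set Metric Filter Topology Manifold
open scoped ContDiff InnerProductSpace Manifold ENNReal

namespace Pool.Agent.TH925.SN

open Pool.Agent.H864R3

variable {S : Type} [MetricSpace S] [ChartedSpace (EuclideanSpace ℝ (Fin 2)) S]
    [IsManifold 𝓘(ℝ, EuclideanSpace ℝ (Fin 2)) ∞ S]
    [RiemannianBundle (fun x : S => TangentSpace 𝓘(ℝ, EuclideanSpace ℝ (Fin 2)) x)]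
    [IsContMDiffRiemannianBundle 𝓘(ℝ, EuclideanSpace ℝ (Fin 2)) ∞ (EuclideanSpace ℝ (Fin 2))
      (fun x : S => TangentSpace 𝓘(ℝ, EuclideanSpace ℝ (Fin 2)) x)]
    [IsRiemannianManifold 𝓘(ℝ, EuclideanSpace ℝ (Fin 2)) S]
    {N : ℕ} {F : S → EuclideanSpace ℝ (Fin N)}

/-- unit speed geodesics are locally distance realizing -/
theorem geod_dist [CompactSpace S] [Nonempty S]
    (hF : ContMDiff 𝓘(ℝ, EuclideanSpace ℝ (Fin 2)) 𝓘(ℝ, EuclideanSpace ℝ (Fin N)) ∞ F)
    (hinj : Function.Injective F) (hiso : Iso F) {R : RS (EuclideanSpace ℝ (Fin N))}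
    (hR : R.S = range F) (L : LE R) {c : ℝ → EuclideanSpace ℝ (Fin N)} {a b : ℝ}
    (hc : IsGeod R.S c (Icc a b)) {s t : ℝ} (hs : s ∈ Icc a b) (ht : t ∈ Icc a b)
    (hst : |s - t| < L.r) :
    dist (Function.invFun F (c s)) (Function.invFun F (c t)) = |s - t| := by
  wlog hle : s ≤ t generalizing s t with H
  · rw [dist_comm, abs_sub_comm]
    exact H ht hs (by rwa [abs_sub_comm]) (le_of_not_ge hle)
  rcases hle.eq_or_lt with rfl | hlt
  · simp
  rw [abs_sub_comm, abs_of_pos (sub_pos.2 hlt)] at hst ⊢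
  obtain ⟨h1, h2⟩ := geod_len L hc hs ht hlt hst
  have m1 : c s ∈ range F := hR ▸ hc.mem s hs
  have m2 : c t ∈ range F := hR ▸ hc.mem t ht
  have e1 : F (Function.invFun F (c s)) = c s := Function.invFun_eq m1
  have e2 : F (Function.invFun F (c t)) = c t := Function.invFun_eq m2
  have h3 := dist_le_len hF hinj hiso hR L (Function.invFun F (c s)) (Function.invFun F (c t))
    (by rw [e1, e2]; exact h1)
  rw [e1, e2, h2] at h3
  have h4 := dist_eq_len hF hinj hiso hR L (Function.invFun F (c s)) (Function.invFun F (c t))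
    (h3.trans_lt (hst.trans L.r_lt))
  rw [h4, e1, e2, h2]

/-- an interior point of a shortest curve: no corner -/
theorem no_corner [CompactSpace S]
    (hF : ContMDiff 𝓘(ℝ, EuclideanSpace ℝ (Fin 2)) 𝓘(ℝ, EuclideanSpace ℝ (Fin N)) ∞ F)
    (hinj : Function.Injective F) (hiso : Iso F) {R : RS (EuclideanSpace ℝ (Fin N))}
    (hR : R.S = range F) (L : LE R) {x y z : S} (hxy : x ≠ y) (hyz : y ≠ z)
    (h1 : dist x y < L.ρ) (h2 : dist y z < L.ρ) (h : dist x y + dist y z = dist x z) :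
    L.w (F x, F y) = L.u (F y, F z) := by
  have hx : F x ∈ R.S := hR ▸ ⟨x, rfl⟩
  have hy : F y ∈ R.S := hR ▸ ⟨y, rfl⟩
  have hz : F z ∈ R.S := hR ▸ ⟨z, rfl⟩
  have n1 : ‖F x - F y‖ < L.ρ := (norm_sub_le_dist hF hiso x y).trans_lt h1
  have n2 : ‖F y - F z‖ < L.ρ := (norm_sub_le_dist hF hiso y z).trans_lt h2
  have hxy' : F x ≠ F y := fun h => hxy (hinj h)
  have hyz' : F y ≠ F z := fun h => hyz (hinj h)
  set w := L.w (F x, F y) with hw
  set u := L.u (F y, F z) with hu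
  have hwt : R.P (F y) w = w := by
    obtain ⟨n, hn⟩ := L.exists_frame hx hy n1 hxy'
    obtain ⟨p1, p2⟩ := L.Φ_frame hx hy n1 hxy' hn
    have h3 := (R.Φ_FB hn (L.len (F x, F y))).2.1
    rw [p1, p2] at h3
    exact h3
  have hut : R.P (F y) u = u := L.u_tan hy hz n2
  set ξ := w - u with hξ
  have hξt : R.P (F y) ξ = ξ := by rw [hξ, map_sub, hwt, hut]
  set c : ℝ → EuclideanSpace ℝ (Fin N) := fun τ => R.π (F y + τ • ξ) with hc
  have hc0 : c 0 = F y := by
    simp only [hc, zero_smul, add_zero]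
    exact R.hπS _ hy
  have hcd : HasDerivAt c ξ 0 := by
    have := curve_deriv R hy ξ
    rwa [hξt] at this
  have hcm : ∀ᶠ τ in 𝓝 (0:ℝ), c τ ∈ R.S := curve_mem R hy ξ
  have d1 := T4.first_variation L (x := fun _ => F x) (y := c) (hasDerivAt_const 0 (F x)) hcd
    (Eventually.of_forall fun _ => hx) hcm (by rw [hc0]; exact n1) (by rw [hc0]; exact hxy')
  have d2 := T4.first_variation L (x := c) (y := fun _ => F z) hcd (hasDerivAt_const 0 (F z))
    hcm (Eventually.of_forall fun _ => hz) (by rw [hc0]; exact n2) (by rw [hc0]; exact hyz')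
  rw [hc0, inner_zero_left, sub_zero] at d1
  rw [hc0, inner_zero_left, zero_sub] at d2
  have d3 := d1.add d2
  have hmin : IsLocalMin (fun τ => L.len (F x, c τ) + L.len (c τ, F z)) 0 := by
    have hcc : ContinuousAt c 0 := hcd.continuousAt
    have m1 : ∀ᶠ τ in 𝓝 (0:ℝ), ‖F x - c τ‖ < L.ρ :=
      ((continuousAt_const.sub hcc).norm).eventually (gt_mem_nhds (by
        show ‖F x - c 0‖ < L.ρ
        rw [hc0]; exact n1))
    have m2 : ∀ᶠ τ in 𝓝 (0:ℝ), ‖c τ - F z‖ < L.ρ :=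
      ((hcc.sub continuousAt_const).norm).eventually (gt_mem_nhds (by
        show ‖c 0 - F z‖ < L.ρ
        rw [hc0]; exact n2))
    filter_upwards [m1, m2, hcm] with τ k1 k2 k3
    rw [hR] at k3
    obtain ⟨y', hy'⟩ := k3
    show L.len (F x, c 0) + L.len (c 0, F z) ≤ L.len (F x, c τ) + L.len (c τ, F z)
    rw [hc0, ← dist_eq_len hF hinj hiso hR L x y h1, ← dist_eq_len hF hinj hiso hR L y z h2, h]
    rw [← hy'] at k1 k2 ⊢
    exact (dist_triangle x y' z).trans (add_le_add (dist_le_len hF hinj hiso hR L x y' k1)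
      (dist_le_len hF hinj hiso hR L y' z k2))
  have d4 := hmin.hasDerivAt_eq_zero d3
  have d5 : ⟪ξ, ξ⟫_ℝ = 0 := by
    conv_lhs => rw [hξ]
    rw [inner_sub_right]
    rw [← hξ]
    linarith
  have d6 := inner_self_eq_zero.1 d5
  exact sub_eq_zero.1 d6

/-- curves that realize the distance locally are orbits of the flow -/
theorem local_geod [CompactSpace S]
    (hF : ContMDiff 𝓘(ℝ, EuclideanSpace ℝ (Fin 2)) 𝓘(ℝ, EuclideanSpace ℝ (Fin N)) ∞ F)
    (hinj : Function.Injective F) (hiso : Iso F) {R : RS (EuclideanSpace ℝ (Fin N))}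
    (hR : R.S = range F) (L : LE R) {c : ℝ → S} {t0 δ : ℝ} (hδ : 0 < δ)
    (hc : ∀ s s', |s - t0| < δ → |s' - t0| < δ → dist (c s) (c s') = |s - s'|) :
    ∃ f ∈ R.FB, ∀ᶠ t in 𝓝 t0, F (c t) = (R.Φ t f).1 := by
  have hr := L.r_pos
  set η := min δ (L.r / 2) with hη
  have hη0 : 0 < η := lt_min hδ (by positivity)
  have hη1 : η ≤ δ := min_le_left _ _
  have hη2 : η ≤ L.r / 2 := min_le_right _ _
  set p := t0 - η / 2 with hp
  set q := t0 - η / 4 with hq
  have hpq : p < q := by rw [hp, hq]; linarith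
  have hS : ∀ x : S, F x ∈ R.S := fun x => hR ▸ ⟨x, rfl⟩
  have win : ∀ s, t0 - η < s → s < t0 + η → |s - t0| < δ := by
    intro s h1 h2
    rw [abs_lt]; constructor <;> linarith
  have hd : ∀ s s', t0 - η < s → s < s' → s' < t0 + η → dist (c s) (c s') = s' - s := by
    intro s s' h1 h2 h3
    rw [hc s s' (win s h1 (h2.trans h3)) (win s' (h1.trans h2) h3), abs_sub_comm,
      abs_of_pos (sub_pos.2 h2)]
  have hp1 : t0 - η < p := by rw [hp]; linarith
  have hq1 : t0 - η < q := by rw [hq]; linarith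
  have hq2 : q < t0 := by rw [hq]; linarith
  have dpq := hd p q hp1 hpq (by linarith)
  have hne : ∀ s s', t0 - η < s → s < s' → s' < t0 + η → c s ≠ c s' := by
    intro s s' h1 h2 h3 h4
    have := hd s s' h1 h2 h3
    rw [h4, dist_self] at this
    linarith
  have hlt : ∀ s s', t0 - η < s → s < s' → s' < t0 + η → s' - s < L.r := by
    intro s s' h1 h2 h3
    linarith
  have npq : F (c p) ≠ F (c q) := fun h => hne p q hp1 hpq (by linarith) (hinj h)
  have rpq : dist (c p) (c q) < L.ρ := by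
    rw [dpq]; exact (hlt p q hp1 hpq (by linarith)).trans L.r_lt
  have kpq := (norm_sub_le_dist hF hiso (c p) (c q)).trans_lt rpq
  obtain ⟨n, hn⟩ := L.exists_frame (hS (c p)) (hS (c q)) kpq npq
  obtain ⟨p1, p2⟩ := L.Φ_frame (hS (c p)) (hS (c q)) kpq npq hn
  rw [← dist_eq_len hF hinj hiso hR L _ _ rpq, dpq] at p1 p2
  set f := (F (c p), L.u (F (c p), F (c q)), n) with hf
  refine ⟨R.Φ (-p) f, R.Φ_FB hn _, ?_⟩
  have hev : ∀ᶠ t in 𝓝 t0, q < t ∧ t < t0 + η :=
    (lt_mem_nhds hq2).and (gt_mem_nhds (by linarith))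
  filter_upwards [hev] with t ht
  obtain ⟨ht1, ht2⟩ := ht
  have dqt := hd q t hq1 ht1 ht2
  have dpt := hd p t hp1 (hpq.trans ht1) ht2
  have rqt : dist (c q) (c t) < L.ρ := by
    rw [dqt]; exact (hlt q t hq1 ht1 ht2).trans L.r_lt
  have nqt : F (c q) ≠ F (c t) := fun h => hne q t hq1 ht1 ht2 (hinj h)
  have kqt := (norm_sub_le_dist hF hiso (c q) (c t)).trans_lt rqt
  have hcor := no_corner hF hinj hiso hR L (hne p q hp1 hpq (by linarith)) (hne q t hq1 ht1 ht2)
    rpq rqt (by rw [dpq, dqt, dpt]; ring)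
  have hg := R.Φ_FB hn (q - p)
  set g := R.Φ (q - p) f with hgdef
  have hg2 : g = (F (c q), L.u (F (c q), F (c t)), g.2.2) := by
    refine Prod.ext p1 (Prod.ext ?_ rfl)
    show g.2.1 = _
    rw [p2, hcor]
  rw [hg2] at hg
  obtain ⟨q1, q2⟩ := L.Φ_frame (hS (c q)) (hS (c t)) kqt nqt hg
  rw [← dist_eq_len hF hinj hiso hR L _ _ rqt, dqt, ← hg2, hgdef, ← R.Φ_add] at q1
  rw [← q1, ← R.Φ_add]
  congr 2
  ring

/-- curves that realize the distance locally are geodesics -/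
theorem isGeod_of_dist [CompactSpace S]
    (hF : ContMDiff 𝓘(ℝ, EuclideanSpace ℝ (Fin 2)) 𝓘(ℝ, EuclideanSpace ℝ (Fin N)) ∞ F)
    (hinj : Function.Injective F) (hiso : Iso F) {R : RS (EuclideanSpace ℝ (Fin N))}
    (hR : R.S = range F) (L : LE R) {c : ℝ → S}
    (hc : ∀ t0 : ℝ, ∃ δ > 0, ∀ s s', |s - t0| < δ → |s' - t0| < δ → dist (c s) (c s') = |s - s'|) :
    IsGeod R.S (fun t => F (c t)) univ := by
  have hloc : ∀ t0 : ℝ, ∃ f ∈ R.FB, (fun t => F (c t)) =ᶠ[𝓝 t0] fun t => (R.Φ t f).1 := by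
    intro t0
    obtain ⟨δ, hδ, h⟩ := hc t0
    exact local_geod hF hinj hiso hR L hδ h
  refine ⟨?_, fun t _ => hR ▸ ⟨c t, rfl⟩, ?_, ?_⟩
  · rw [contDiff_iff_contDiffAt]
    intro t
    obtain ⟨f, hf, h⟩ := hloc t
    exact (T8.geod_of_frame R hf univ).smooth.contDiffAt.congr_of_eventuallyEq h
  · intro t _
    obtain ⟨f, hf, h⟩ := hloc t
    rw [h.deriv_eq]
    exact (T8.geod_of_frame R hf univ).unit t (mem_univ t)
  · intro t _ v hv
    obtain ⟨f, hf, h⟩ := hloc t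
    rw [h.deriv.deriv_eq]
    refine (T8.geod_of_frame R hf univ).geod t (mem_univ t) v ?_
    simp only [h.self_of_nhds] at hv
    exact hv

end Pool.Agent.TH925.SN
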